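import Pool.Agent.H633R2.LC.Thr

/-!
# The number of cancelling gates: an explicit family with matching bounds
-/

namespace Pool.Agent.Results.MP_5daf37_lc.CancellingGateThreshold

open H633LC

/-- For every `ε > 0` there are `k ≥ 2` and `c > 0` such that for every large `n`: there are primes
`p` with `(2p)^k ≤ n < (4p)^k`, and for every such `p` and every basis `β` of a field `E` of degree
`k` over `ZMod p`, the circulant 0/1 matrix `circ01 F n W`, `W = normShifts β`, has at least
`n^(1-ε)` ones in every row and satisfies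

* for every linear circuit computing it, over every field, and every set `H` of at most `n` nodes,
  `c (n - |H|)^2 |W| ≤ |E| ((n - |H|) + τ)`, where `τ` is the number of cancellations outside `H`;
* hence `c (n - g) |W| ≤ size`, where `g` is the number of cancelling gates;
* over the reals and over the complex numbers, a circuit `C0` computing it yields, for every
  `t ≤ n`, a circuit with at most `t` cancelling gates and size at most `9 |C0| + (n - t) |W|`,
  respectively `23 |C0| + (n - t) |W|`;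
* it has circuits of size `O(n log n)` over the reals and over the complex numbers. -/
theorem result (ε : ℝ) (hε : 0 < ε) : ∃ (k : ℕ) (c : ℝ), 2 ≤ k ∧ 0 < c ∧ ∃ n0 : ℕ,
    ∀ n : ℕ, n0 ≤ n →
    (∃ (p : ℕ) (_ : Fact p.Prime) (E : Type) (_ : Field E) (_ : Algebra (ZMod p) E),
      (2 * p) ^ k ≤ n ∧ n < (4 * p) ^ k ∧ Nonempty (Module.Basis (Fin k) (ZMod p) E)) ∧
    ∀ (p : ℕ) (_ : Fact p.Prime), (2 * p) ^ k ≤ n → n < (4 * p) ^ k →
    ∀ (E : Type) [Field E] [Algebra (ZMod p) E] (β : Module.Basis (Fin k) (ZMod p) E),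
      (∀ w ∈ normShifts β, w < n) ∧
      (n : ℝ) ^ (1 - ε) ≤ (normShifts β).card ∧
      (∀ (F : Type) [Field F] (C : LinCircuit F n n),
        C.Computes (circ01 F n (normShifts β)) → ∀ H : Finset C.V, H.card ≤ n →
        c * ((n : ℝ) - H.card) ^ 2 * (normShifts β).card ≤
          C.E.card * (((n : ℝ) - H.card) + ∑ v ∈ Finset.univ \ H, ((C.cancelSet v).card : ℝ))) ∧
      (∀ (F : Type) [Field F] (C : LinCircuit F n n),
        C.Computes (circ01 F n (normShifts β)) →
        c * ((n : ℝ) - C.cancelGates.card) * (normShifts β).card ≤ C.size) ∧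
      (∀ C0 : LinCircuit ℝ n n, C0.Computes (circ01 ℝ n (normShifts β)) → ∀ t ≤ n,
        ∃ C : LinCircuit ℝ n n, C.Computes (circ01 ℝ n (normShifts β)) ∧
          C.cancelGates.card ≤ t ∧ C.size ≤ 9 * C0.size + (n - t) * (normShifts β).card) ∧
      (∀ C0 : LinCircuit ℂ n n, C0.Computes (circ01 ℂ n (normShifts β)) → ∀ t ≤ n,
        ∃ C : LinCircuit ℂ n n, C.Computes (circ01 ℂ n (normShifts β)) ∧
          C.cancelGates.card ≤ t ∧ C.size ≤ 23 * C0.size + (n - t) * (normShifts β).card) ∧
      (∃ C : LinCircuit ℝ n n, C.Computes (circ01 ℝ n (normShifts β)) ∧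
        C.size ≤ n * (520 + 144 * Nat.log 2 n)) ∧
      (∃ C : LinCircuit ℂ n n, C.Computes (circ01 ℂ n (normShifts β)) ∧
        C.size ≤ n * (130 + 36 * Nat.log 2 n)) := by
  obtain ⟨k, c, hk, hc, n0, h⟩ := threshold ε hε
  refine ⟨k, c, hk, hc, max n0 1, fun n hn => ?_⟩
  have hn0 : n0 ≤ n := le_trans (le_max_left _ _) hn
  have hn1 : 1 ≤ n := le_trans (le_max_right _ _) hn
  obtain ⟨h1, h2⟩ := h n hn0
  refine ⟨h1, fun p hp hp1 hp2 E _ _ β => ?_⟩
  obtain ⟨g1, g2, g3, g4⟩ := h2 p hp hp1 hp2 E β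
  have hne : (normShifts β).Nonempty := by
    rw [← Finset.card_pos]
    have h3 : (0 : ℝ) < (n : ℝ) ^ (1 - ε) :=
      Real.rpow_pos_of_pos (by exact_mod_cast hn1) _
    exact_mod_cast lt_of_lt_of_le h3 g2
  obtain ⟨u1, u2⟩ := circ01_upper (normShifts β) g1 hne
  exact ⟨g1, g2, g3, g4, u1, u2, circ_fft_real n hn1 _, circ_fft n hn1 _⟩

end Pool.Agent.Results.MP_5daf37_lc.CancellingGateThreshold
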