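import Pool.Agent.H633R2.LC.Sep

/-!
# Linear circuits with a small separator between variables and outputs not containing them
-/

namespace Pool.Agent.Results.MP_5daf37_lc.SeparatorThreshold

open H633LC

/-- `C.Hits T`: the set `T` of nodes meets every path (nonzero scalars) from a source carrying
`x_j` to an output whose form does not contain `x_j`.

(1) The set of the cancelling gates has this property in every circuit.
(2) For every `ε > 0` there is an explicit family of 0/1 Toeplitz matrices with `n^(1-ε)` shifts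
(of which the data exist for every large `n`), such that every circuit over any field computing it
with such a set `T`, `|T| ≤ n - n^(1-γ)`, has size at least `c |W| (n - |T|)`; and over `ℂ`, for
every `t ≤ n` there is a circuit with at most `t` cancelling gates and size at most
`|W| (n - t) + O(n log n)`.
(3) A family with explicit constants: `n^(1/5) (n - |T|) / 5 ≤ size` if `|T| ≤ n - 20 n^(4/5)`. -/
theorem result :
    (∀ (F : Type) [Field F] (n r : ℕ) (C : LinCircuit F n r), C.Hits C.cancelGates) ∧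
    (∀ ε : ℝ, 0 < ε → ∃ (k h : ℕ) (γ c : ℝ), 1 ≤ k ∧ 1 ≤ h ∧ 0 < γ ∧
      0 < c ∧ ∃ n0 : ℕ, ∀ n : ℕ, n0 ≤ n →
      (∃ (u p : ℕ) (_ : Fact p.Prime) (E : Type) (_ : Field E) (_ : Algebra (ZMod p) E),
        u ^ ((k + 2) * (h + 1)) ≤ n ∧ n < (u + 1) ^ ((k + 2) * (h + 1)) ∧ u ^ h ≤ 2 * p ∧
        p ≤ u ^ h ∧ Nonempty (Module.Basis (Fin k) (ZMod p) E)) ∧
      ∀ (u p : ℕ) (_ : Fact p.Prime), u ^ ((k + 2) * (h + 1)) ≤ n →
        n < (u + 1) ^ ((k + 2) * (h + 1)) → u ^ h ≤ 2 * p → p ≤ u ^ h →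
      ∀ (E : Type) [Field E] [Algebra (ZMod p) E] (β : Module.Basis (Fin k) (ZMod p) E),
        (n : ℝ) ^ (1 - ε) ≤ (liftShifts β (u * p)).card ∧
        (∀ (F : Type) [Field F] (C : LinCircuit F n n),
          C.Computes (toeplitz01 F n (liftShifts β (u * p))) →
          ∀ T : Finset C.V, C.Hits T → (n : ℝ) ^ (1 - γ) ≤ n - T.card →
          c * (liftShifts β (u * p)).card * (n - T.card) ≤ C.size) ∧
        (∀ t ≤ n, ∃ C : LinCircuit ℂ n n, C.Computes (toeplitz01 ℂ n (liftShifts β (u * p))) ∧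
          C.cancelGates.card ≤ t ∧
          C.size ≤ (n - t) * (liftShifts β (u * p)).card + n * (2087 + 576 * Nat.log 2 n))) ∧
    (∀ q n : ℕ, 2 ≤ q → 2 * q ^ 5 ≤ n → n < 2 * (q + 1) ^ 5 → ∀ (F : Type) [Field F]
      (C : LinCircuit F n n),
      C.Computes (toeplitz01 F n ((Finset.range q).image (fun a => a + q ^ 2 * a ^ 2))) →
      ∀ T : Finset C.V, C.Hits T → 20 * (n : ℝ) ^ (4 / 5 : ℝ) ≤ n - T.card →
      (n : ℝ) ^ (1 / 5 : ℝ) * (n - T.card) / 5 ≤ C.size) := by
  refine ⟨fun F _ n r C => C.cancelGates_hits, ?_, ?_⟩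
  · intro ε hε
    obtain ⟨k, h, γ, c, hk, hh, hγ, hc, n0, hmain⟩ := separator ε hε
    refine ⟨k, h, γ, c, hk, hh, hγ, hc, max n0 1, fun n hn => ?_⟩
    have hn0 : n0 ≤ n := le_trans (le_max_left _ _) hn
    have hn1 : 1 ≤ n := le_trans (le_max_right _ _) hn
    obtain ⟨h1, h2⟩ := hmain n hn0
    refine ⟨h1, fun u p hp g1 g2 g3 g4 E _ _ β => ?_⟩
    obtain ⟨e1, e2⟩ := h2 u p hp g1 g2 g3 g4 E β
    exact ⟨e1, e2, fun t ht => toeplitz_upper n hn1 _ t ht⟩
  · intro q n hq hn hn2 F _ C hC T hT hT2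
    refine parabola_five q n hq hn hn2 F C ?_ T hT hT2
    intro x y
    rw [hC x y]
    unfold toeplitz01
    have : (∃ w ∈ (Finset.range q).image (fun a => a + q ^ 2 * a ^ 2), (y : ℕ) = x + w) ↔
        (∃ a : ℕ, a < q ∧ (y : ℕ) = x + (a + q * q * a ^ 2)) := by
      simp only [Finset.mem_image, Finset.mem_range]
      constructor
      · rintro ⟨w, ⟨a, ha, rfl⟩, h⟩; exact ⟨a, ha, by rw [h]; ring⟩
      · rintro ⟨a, ha, h⟩; exact ⟨_, ⟨a, ha, rfl⟩, by rw [h]; ring⟩
    simp only [this]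

end Pool.Agent.Results.MP_5daf37_lc.SeparatorThreshold
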