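import Mathlib
import Pool.Agent.H468R2.Lin.Defs
import Pool.Agent.H468R2.Lin.Main

/-!
# Linear circuits of small treewidth

Over a field of characteristic zero, every linear circuit computing the `n × n` Hilbert matrix
(entries `1 / (i + j + 1)`) whose gate graph (the inputs are deleted, so that they may be read any
number of times) has treewidth at most `t` satisfies
`n ² ≤ 72 (t + 1) L log₂ (3 L / n)`, where `L` is the number of edges leaving the inputs.
-/

namespace Pool.Agent.Results.MP_5daf37_lc.SublinearTreewidth

open Pool.Agent.H468R2.Lin

theorem result (F : Type) [Field F] [CharZero F] (n t : ℕ) (hn : 2 ≤ n) (C : LinCircuit F n)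
    (hC : C.Computes (hilbert F n)) (hT : HasTreeDec C.adj t) :
    (n : ℝ) ^ 2 ≤ 72 * (t + 1) * C.inputEdges * Real.logb 2 (3 * C.inputEdges / n) :=
  lin_bound C hC hn t hT

end Pool.Agent.Results.MP_5daf37_lc.SublinearTreewidth
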