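import Pool.Agent.H529R2.SymLin.Enough
set_option autoImplicit false

/-! # The fast Fourier transform is optimal among symmetric linear circuits

The inputs of a linear circuit are indexed by a finite abelian group `A`; a function `f : A → F` stands
for the linear form `∑ x, f x * (input x)`, so the characters of `A` are the rows of the Fourier
transform of `A` (for `A = (ℤ/2)^m`, of the Walsh-Hadamard matrix).  Gates compute arbitrary linear
combinations of any number of inputs and earlier gates; a gate of fan-in `d` costs `d - 1` additions.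
If `rank v < D` for all gates `v`, then the depth is at most `D`.  The circuit is symmetric if its gates
are permuted, up to scalars, by the translations `f ↦ f (· + a)` and the modulations `f ↦ χ * f`, as the
inputs and the outputs of the Fourier transform are. -/

namespace Pool.Agent.Results.MP_5daf37_lc.SymmetricFFT

open H529R2.SymLin

/-- (1) Let every function `A → F` be a linear combination of characters, `N = |A|`.  A symmetric
linear circuit which computes a form with at least `s` nonzero coefficients (for instance with `s = N`,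
a row of the Fourier transform) has at least `N log₂ s` additions.  If its depth is at most `D`, it has
at least `N ∑ (e i - 1)` additions for some positive integers `e 1, …, e D` with product at least `s`,
and at least `D N (s ^ (1 / D) - 1)`.

(2) If `N = (p ^ k) ^ D` with a prime `p`, then the least number of additions of a symmetric linear
circuit of depth at most `D` for the Fourier transform of `A` is exactly
`D N (p ^ k - 1) = D N (N ^ (1 / D) - 1)`.

(3) If `N = 2 ^ m`, `m ≥ 1`, then the least number of additions of a symmetric linear circuit (of any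
depth) for the Fourier transform of `A` is exactly `m 2 ^ m = N log₂ N`.

(4) The hypothesis on the characters is satisfied for `F = ℂ` and every finite abelian group, and for
`A = (ℤ/2)^m` and every field with `2 ≠ 0`. -/
theorem result :
    (∀ (F A V : Type) [Field F] [AddCommGroup A] [Fintype A] [DecidableEq A] [Fintype V],
      EnoughCharacters F A → ∀ (rank : V → ℕ) (pred : V → Finset (A ⊕ V)) (form : V → A → F),
      IsLinearCircuit rank pred form → IsSymmetric pred form →
      ∀ s : ℕ, (∃ v, s ≤ Nat.card {x // form v x ≠ 0}) →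
        s ^ Fintype.card A ≤ 2 ^ additions pred ∧
        ∀ D : ℕ, (∀ v, rank v < D) →
          (∃ e : Fin D → ℕ, (∀ i, 1 ≤ e i) ∧ s ≤ ∏ i, e i ∧
            Fintype.card A * ∑ i, (e i - 1) ≤ additions pred) ∧
          s * (D * Fintype.card A) ^ D ≤ (additions pred + D * Fintype.card A) ^ D) ∧
    (∀ (F A : Type) [Field F] [AddCommGroup A] [Fintype A] [DecidableEq A] (p k D : ℕ),
      EnoughCharacters F A → p.Prime → 1 ≤ D → Fintype.card A = (p ^ k) ^ D →
      IsLeast {c | ∃ (V : Type) (_ : Fintype V) (rank : V → ℕ) (pred : V → Finset (A ⊕ V))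
        (form : V → A → F), IsLinearCircuit rank pred form ∧ IsSymmetric pred form ∧
        (∀ v, rank v < D) ∧ (∀ χ : AddChar A F, ∃ v, form v = χ) ∧ additions pred = c}
        (D * Fintype.card A * (p ^ k - 1))) ∧
    (∀ (F A : Type) [Field F] [AddCommGroup A] [Fintype A] [DecidableEq A] (m : ℕ),
      EnoughCharacters F A → 1 ≤ m → Fintype.card A = 2 ^ m →
      IsLeast {c | ∃ (V : Type) (_ : Fintype V) (rank : V → ℕ) (pred : V → Finset (A ⊕ V))
        (form : V → A → F), IsLinearCircuit rank pred form ∧ IsSymmetric pred form ∧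
        (∀ χ : AddChar A F, ∃ v, form v = χ) ∧ additions pred = c} (m * 2 ^ m)) ∧
    (∀ (A : Type) [AddCommGroup A] [Finite A], EnoughCharacters ℂ A) ∧
    (∀ (F : Type) [Field F] (m : ℕ), (2 : F) ≠ 0 → EnoughCharacters F (Fin m → ZMod 2)) := by
  have hlow : ∀ (F A V : Type) [Field F] [AddCommGroup A] [Fintype A] [DecidableEq A]
      [Fintype V], EnoughCharacters F A → ∀ (rank : V → ℕ) (pred : V → Finset (A ⊕ V))
      (form : V → A → F), IsLinearCircuit rank pred form → IsSymmetric pred form →
      ∀ s : ℕ, (∃ v, s ≤ supp (form v)) → s ^ Fintype.card A ≤ 2 ^ additions pred ∧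
        ∀ D : ℕ, (∀ v, rank v < D) → ∃ e : Fin D → ℕ, (∀ i, 1 ≤ e i) ∧ s ≤ ∏ i, e i ∧
            Fintype.card A * ∑ i, (e i - 1) ≤ additions pred := by
    intro F A V _ _ _ inst _ hA rank pred form hc hs s hex
    have hinst : inst = fun a b => Classical.propDecidable (a = b) := Subsingleton.elim _ _
    subst hinst
    exact ⟨lower hA hc hs hex, fun D hD => lower_depth hA hc hs hD hex⟩
  have hdep : ∀ (N D C s : ℕ) (e : Fin D → ℕ), (∀ i, 1 ≤ e i) → s ≤ ∏ i, e i →
      N * ∑ i, (e i - 1) ≤ C → s * (D * N) ^ D ≤ (C + D * N) ^ D := by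
    intro N D C s e he hs hC
    rcases Nat.eq_zero_or_pos D with h0 | h0
    · subst h0
      simpa using hs
    have h1 := amgm h0 e
    have h2 : ∑ i, e i = ∑ i, (e i - 1) + D := by
      have : ∀ i ∈ (Finset.univ : Finset (Fin D)), e i = (e i - 1) + 1 := fun i _ => by
        have := he i
        omega
      rw [Finset.sum_congr rfl this, Finset.sum_add_distrib]
      simp
    calc s * (D * N) ^ D ≤ (∏ i, e i) * (D * N) ^ D := Nat.mul_le_mul_right _ hs
      _ = (D ^ D * ∏ i, e i) * N ^ D := by rw [mul_pow]; ring
      _ ≤ (∑ i, e i) ^ D * N ^ D := Nat.mul_le_mul_right _ h1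
      _ = (N * ∑ i, (e i - 1) + D * N) ^ D := by rw [← mul_pow, h2]; ring_nf
      _ ≤ (C + D * N) ^ D := Nat.pow_le_pow_left (by omega) _
  refine ⟨?_, ?_, ?_, fun A _ _ => enough_complex A, fun F _ m h2 => enough_cube h2 m⟩
  · intro F A V _ _ _ _ _ hA rank pred form hc hs s ⟨v, hv⟩
    have hex : ∃ v, s ≤ supp (form v) := by
      refine ⟨v, ?_⟩
      classical
      rw [Nat.card_eq_fintype_card, Fintype.card_subtype] at hv
      rw [supp]
      convert hv
    obtain ⟨h1, h2⟩ := hlow F A V hA rank pred form hc hs s hex
    refine ⟨h1, fun D hD => ?_⟩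
    obtain ⟨e, he, he1, he2⟩ := h2 D hD
    exact ⟨⟨e, he, he1, he2⟩, hdep _ _ _ _ e he he1 he2⟩
  · intro F A _ _ _ inst p k D hA hp hD hcard
    have hlb : ∀ (V : Type) (_ : Fintype V) (rank : V → ℕ) (pred : V → Finset (A ⊕ V))
        (form : V → A → F), IsLinearCircuit rank pred form → IsSymmetric pred form →
        (∀ v, rank v < D) → (∀ χ : AddChar A F, ∃ v, form v = χ) →
        D * Fintype.card A * (p ^ k - 1) ≤ additions pred := by
      intro V _ rank pred form hc hs hr hout
      obtain ⟨v, hv⟩ := hout 1
      obtain ⟨-, h2⟩ := hlow F A V hA rank pred form hc hs (Fintype.card A)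
        ⟨v, by rw [hv, supp_char]⟩
      obtain ⟨e, he, he1, he2⟩ := h2 D hr
      have h3 := hdep _ _ _ _ e he he1 he2
      have h4 : (p ^ k * (D * Fintype.card A)) ^ D ≤ (additions pred + D * Fintype.card A) ^ D := by
        rw [mul_pow, ← hcard]
        exact h3
      have h5 := (Nat.pow_le_pow_iff_left (by omega)).mp h4
      have h6 : 1 ≤ p ^ k := Nat.one_le_pow _ _ hp.pos
      have h7 : p ^ k * (D * Fintype.card A) =
          D * Fintype.card A * (p ^ k - 1) + D * Fintype.card A := by
        calc p ^ k * (D * Fintype.card A) = ((p ^ k - 1) + 1) * (D * Fintype.card A) := by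
              rw [Nat.sub_add_cancel h6]
          _ = _ := by ring
      omega
    constructor
    · have hinst : inst = fun a b => Classical.propDecidable (a = b) := Subsingleton.elim _ _
      subst hinst
      obtain ⟨V, iV, rank, pred, form, h1, h2, h3, h4, h5⟩ := upper (F := F) hp hD hcard
      exact ⟨V, iV, rank, pred, form, h1, h2, h3, h4,
        le_antisymm h5 (hlb V iV rank pred form h1 h2 h3 h4)⟩
    · rintro c ⟨V, iV, rank, pred, form, h1, h2, h3, h4, rfl⟩
      exact hlb V iV rank pred form h1 h2 h3 h4
  · intro F A _ _ _ inst m hA hm hcard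
    have hlb : ∀ (V : Type) (_ : Fintype V) (rank : V → ℕ) (pred : V → Finset (A ⊕ V))
        (form : V → A → F), IsLinearCircuit rank pred form → IsSymmetric pred form →
        (∀ χ : AddChar A F, ∃ v, form v = χ) → m * 2 ^ m ≤ additions pred := by
      intro V _ rank pred form hc hs hout
      obtain ⟨v, hv⟩ := hout 1
      obtain ⟨h1, -⟩ := hlow F A V hA rank pred form hc hs (Fintype.card A)
        ⟨v, by rw [hv, supp_char]⟩
      rw [hcard, ← pow_mul] at h1
      exact (Nat.pow_le_pow_iff_right (by norm_num)).mp h1
    constructor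
    · have hinst : inst = fun a b => Classical.propDecidable (a = b) := Subsingleton.elim _ _
      subst hinst
      obtain ⟨V, iV, rank, pred, form, h1, h2, -, h4, h5⟩ := upper (F := F) (p := 2) (k := 1)
        Nat.prime_two hm (by rw [pow_one]; exact hcard)
      refine ⟨V, iV, rank, pred, form, h1, h2, h4,
        le_antisymm ?_ (hlb V iV rank pred form h1 h2 h4)⟩
      rw [hcard] at h5
      simpa using h5
    · rintro c ⟨V, iV, rank, pred, form, h1, h2, h3, rfl⟩
      exact hlb V iV rank pred form h1 h2 h3

end Pool.Agent.Results.MP_5daf37_lc.SymmetricFFT
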